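import Pool.Agent.Work.MP_f474fe_lc.PT.ACMain

/-!
Polynomial threshold gates on top of constant-depth circuits fail on the k-partite bipartite planted
clique problem.
-/

namespace Pool.Agent.Work.MP_f474fe_lc.Parked.ThresholdAC0

open Pool.Agent.Work.MP_f474fe_lc.PT

theorem result : ∀ (m n km kn : ℕ) (E : Fin n → Fin kn), 1 ≤ km → 1 ≤ kn → kn ∣ n →
    (∀ j, (Finset.univ.filter fun v => E v = j).card = n / kn) →
    ∀ g : ℝ, 1 ≤ g → g * (km : ℝ) ^ 2 ≤ m → g * (kn : ℝ) ^ 2 ≤ n →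
    ∀ (s d D M u : ℕ), 1 ≤ d → 1 ≤ D → 1 ≤ u →
    ∀ A : (Fin m × Fin n → Bool) → Bool, CircTest s d D M A →
      1 - 512 * s * d * (u : ℝ) ^ 2 * g ^ (-(1 / (500 * d * (u : ℝ) ^ 2))) -
        M * (16 * (u : ℝ) ^ 2) ^ (3 * u ^ 2) * g ^ (-((u : ℝ) / D)) ≤ totalError km E A :=
  fun m n km kn E h1 h2 h3 h4 g h5 h6 h7 s d D M u h8 h9 h10 A hA =>
    ac_main m n km kn E h1 h2 h3 h4 g h5 h6 h7 s d D M u h8 h9 h10 A hA

end Pool.Agent.Work.MP_f474fe_lc.Parked.ThresholdAC0
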